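import Pool.Agent.MWNP.Stmts

/-!
Clause c3b of base (h), period `n` (twin of N3B by helper24).
-/

set_option autoImplicit false

namespace Pool.Agent.MWNP.H7

open Pool.Agent.Helper14_MV Pool.Agent.Helper2_MV Pool.Agent.MVO Pool.Agent.MWL Pool.Agent.MWS
  Pool.Agent.MWF Pool.Agent.MWN

theorem p3b (hp : PphStmt) (hx : PcxStmt) (ha : MWL.ArrStmt) (hb : PhbStmt) : P3bStmt := by
  intro n β H hi hm hD st
  have hG : ¬ Op n β Bit.G := fun h => hD ((ha n (FC.ofFIC β) (hb n β H hi).2.2.1).2.2.1 h)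
  have hA1 : Clo β 2 (cd3 Cd.z Cd.one Cd.pos) := hx n β H hi [8, 3, 2] 2 _
    (by
      intro x hx
      simp only [List.mem_cons, List.not_mem_nil, or_false] at hx
      tauto) (by decide +kernel)
  have hB1 : Clo β 2 (cd3 Cd.one Cd.one Cd.z) := hx n β H hi [8] 2 _
    (by
      intro x hx
      simp only [List.mem_cons, List.not_mem_nil, or_false] at hx
      tauto) (by decide +kernel)
  have hA2 : Clo β 2 (cd3 Cd.z Cd.pos Cd.any) := hx n β H hi [8, 3, 2] 2 _
    (by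
      intro x hx
      simp only [List.mem_cons, List.not_mem_nil, or_false] at hx
      tauto) (by decide +kernel)
  rcases hp n β H hi hm 2 1 (cd3 Cd.z Cd.one Cd.pos) (cd3 Cd.one Cd.one Cd.z)
    (cd3 Cd.z Cd.pos Cd.any) (cd3 Cd.one Cd.one Cd.z) st (v3 0 2 2)
    (v3 0 1 2) (v3 1 1 0) (v3 1 1 0) (by decide +kernel) (by decide) (by decide)
    (by decide) (by decide) hA1 hB1 hA2 hB1 with h | h
  · cases st
    · have h1 : RR β [1, 2, 0, 1, 3, 0, 0] [1, 2, 1, 0, 3, 0, 0] := h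
      have h2 : RR β [1, 2, 0, 0, 1, 3, 0, 0] [1, 2, 0, 1, 0, 3, 0, 0] :=
        h1.sub fun c => if c = 2 then [2, 0] else [c]
      exact h2
    · have h1 : RR β [1, 2, 1, 0, 3, 0, 0] [1, 2, 0, 1, 3, 0, 0] := h
      have h2 : RR β [1, 2, 1, 0, 0, 3, 0, 0] [1, 2, 0, 1, 0, 3, 0, 0] :=
        h1.sub fun c => if c = 3 then [0, 3] else [c]
      exact h2
  · cases st
    · exact h
    · exact h

end Pool.Agent.MWNP.H7
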